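import Mathlib

set_option autoImplicit false
open Cardinal Order

universe u

namespace Pool.Agent.Results.MP_04d4af_lc.NoBox

section Reach

variable {W I : Type u} [LinearOrder W] [WellFoundedLT W] [LinearOrder I] [WellFoundedLT I]

/-- One step of a descending walk of weight at most `i`. -/
def R (e : W → W → I) (i : I) (x z : W) : Prop := x < z ∧ e z x ≤ i

omit [WellFoundedLT W] [WellFoundedLT I] in
lemma reach_mono (e : W → W → I) {i j : I} (hij : i ≤ j) {x z : W}
    (h : Relation.TransGen (R e i) x z) : Relation.TransGen (R e j) x z := by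
  induction h with
  | single hab => exact Relation.TransGen.single ⟨hab.1, hab.2.trans hij⟩
  | tail _ hab ih => exact ih.tail ⟨hab.1, hab.2.trans hij⟩

omit [WellFoundedLT W] [WellFoundedLT I] in
lemma reach_self (e : W → W → I) {x z : W} (h : x < z) :
    Relation.TransGen (R e (e z x)) x z :=
  Relation.TransGen.single ⟨h, le_rfl⟩

omit [WellFoundedLT W] [WellFoundedLT I] in
lemma reach_eq (e : W → W → I) (i : I) (z : W) :
    {x | Relation.TransGen (R e i) x z}
      = ⋃ y ∈ {y | R e i y z}, ({y} ∪ {x | Relation.TransGen (R e i) x y}) := by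
  ext x
  simp only [Set.mem_ofPred_eq, Set.mem_iUnion, exists_prop, Set.mem_union, Set.mem_singleton_iff]
  rw [Relation.TransGen.tail'_iff]
  constructor
  · rintro ⟨y, hxy, hyz⟩
    refine ⟨y, hyz, ?_⟩
    rcases Relation.reflTransGen_iff_eq_or_transGen.1 hxy with h | h
    · exact Or.inl h.symm
    · exact Or.inr h
  · rintro ⟨y, hyz, h | h⟩
    · exact ⟨y, h ▸ Relation.ReflTransGen.refl, hyz⟩
    · exact ⟨y, h.to_reflTransGen, hyz⟩

omit [WellFoundedLT I] in
lemma card_reach (κ : Cardinal.{u}) (hκ : ℵ₀ ≤ κ) (hI : ∀ i : I, #(Set.Iic i) < κ)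
    (e : W → W → I) (he : ∀ z, Set.InjOn (e z) (Set.Iio z)) (i : I) (z : W) :
    #{x | Relation.TransGen (R e i) x z} < κ := by
  have hstep : ∀ z, #{y | R e i y z} ≤ #(Set.Iic i) := by
    intro z
    have hinj : Set.InjOn (e z) {y | R e i y z} := (he z).mono (fun y hy => hy.1)
    rw [← Cardinal.mk_image_eq_of_injOn _ _ hinj]
    apply Cardinal.mk_le_mk_of_subset
    rintro _ ⟨y, hy, rfl⟩
    exact hy.2
  rcases eq_or_lt_of_le hκ with h0 | h0
  · -- countable case: all sets are finite
    rw [← h0]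
    rw [← h0] at hI
    have key : ∀ z : W, {x | Relation.TransGen (R e i) x z}.Finite := by
      intro z
      induction z using WellFoundedLT.induction with
      | ind z ih =>
        rw [reach_eq]
        apply Set.Finite.biUnion
        · exact Cardinal.lt_aleph0_iff_set_finite.1 ((hstep z).trans_lt (hI i))
        · intro y hy
          exact (Set.finite_singleton y).union (ih y hy.1)
    exact Cardinal.lt_aleph0_iff_set_finite.2 (key z)
  · have hμ : max (#(Set.Iic i)) ℵ₀ < κ := max_lt (hI i) h0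
    refine lt_of_le_of_lt ?_ hμ
    induction z using WellFoundedLT.induction with
    | ind z ih =>
      rw [reach_eq]
      refine (Cardinal.mk_biUnion_le _ _).trans ?_
      refine (mul_le_mul' ((hstep z).trans (le_max_left _ ℵ₀)) (ciSup_le' ?_)).trans
        (Cardinal.mul_eq_self (le_max_right _ _)).le
      rintro ⟨y, hy⟩
      refine (Cardinal.mk_union_le _ _).trans ?_
      have h1 : #({y} : Set W) ≤ max (#(Set.Iic i)) ℵ₀ := by
        rw [Cardinal.mk_singleton]
        exact (one_le_aleph0).trans (le_max_right _ _)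
      exact (add_le_add h1 (ih y hy.1)).trans (Cardinal.add_eq_self (le_max_right _ _)).le

open Classical in
/-- The least weight of a descending walk from `z` to `x`. -/
noncomputable def dist (e : W → W → I) (x z : W) : I :=
  if h : x < z then
    WellFounded.min (wellFounded_lt (α := I)) {i | Relation.TransGen (R e i) x z}
      ⟨e z x, reach_self e h⟩
  else e z x

omit [WellFoundedLT W] in
lemma dist_spec (e : W → W → I) {x z : W} (h : x < z) :
    Relation.TransGen (R e (dist e x z)) x z := by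
  unfold dist
  rw [dif_pos h]
  exact WellFounded.min_mem (wellFounded_lt (α := I)) {i | Relation.TransGen (R e i) x z} _

omit [WellFoundedLT W] in
lemma dist_le (e : W → W → I) {x z : W} (h : x < z) {i : I}
    (hi : Relation.TransGen (R e i) x z) : dist e x z ≤ i := by
  unfold dist
  rw [dif_pos h]
  exact not_lt.1 (WellFounded.not_lt_min (wellFounded_lt (α := I))
    {i | Relation.TransGen (R e i) x z} (x := i) hi)

omit [WellFoundedLT W] in
lemma dist_sub (e : W → W → I) (x y z : W) (hxy : x < y) (hyz : y < z) :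
    dist e x z ≤ max (dist e x y) (dist e y z) :=
  dist_le e (hxy.trans hyz)
    ((reach_mono e (le_max_left _ _) (dist_spec e hxy)).trans
      (reach_mono e (le_max_right _ _) (dist_spec e hyz)))

lemma dist_small (κ : Cardinal.{u}) (hκ : ℵ₀ ≤ κ) (hI : ∀ i : I, #(Set.Iic i) < κ)
    (e : W → W → I) (he : ∀ z, Set.InjOn (e z) (Set.Iio z)) (z : W) (i : I) :
    #{x | x < z ∧ dist e x z ≤ i} < κ := by
  refine lt_of_le_of_lt (Cardinal.mk_le_mk_of_subset ?_) (card_reach κ hκ hI e he i z)
  rintro x ⟨h1, h2⟩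
  exact reach_mono e h2 (dist_spec e h1)

end Reach

section Core

variable {W I : Type u} [LinearOrder W] [WellFoundedLT W] [LinearOrder I] [WellFoundedLT I]

/-- `x` comes before `y` in the order attached to `z`. -/
def Before (d : W → W → I) (z x y : W) : Prop := d x z < d y z ∨ (d x z = d y z ∧ x < y)

omit [WellFoundedLT W] [WellFoundedLT I] in
lemma before_asymm (d : W → W → I) {z x y : W} (h : Before d z x y) : ¬ Before d z y x := by
  rintro (h' | ⟨h1', h2'⟩)
  · rcases h with h | ⟨h1, h2⟩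
    · exact lt_asymm h h'
    · exact absurd h1.symm h'.ne
  · rcases h with h | ⟨h1, h2⟩
    · exact absurd h1'.symm h.ne
    · exact lt_asymm h2 h2'

omit [WellFoundedLT W] [WellFoundedLT I] in
lemma before_total (d : W → W → I) {z x y : W} (hne : x ≠ y) (h : ¬ Before d z x y) :
    Before d z y x := by
  rcases lt_trichotomy (d x z) (d y z) with h1 | h1 | h1
  · exact absurd (Or.inl h1) h
  · rcases lt_or_gt_of_ne hne with h2 | h2
    · exact absurd (Or.inr ⟨h1, h2⟩) h
    · exact Or.inr ⟨h1.symm, h2⟩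
  · exact Or.inl h1

omit [WellFoundedLT W] [WellFoundedLT I] in
lemma before_le (d : W → W → I) {z x y : W} (h : Before d z x y) : d x z ≤ d y z := by
  rcases h with h | ⟨h, _⟩
  · exact h.le
  · exact h.le

/-- The colouring: compare two of the points in the order attached to the largest one,
cyclically in the three roles. -/
def Col (d : W → W → I) (a b g : W) : Prop :=
  (a < g ∧ b < g ∧ Before d g a b) ∨ (b < a ∧ g < a ∧ Before d a b g) ∨
    (g < b ∧ a < b ∧ Before d b g a)

omit [WellFoundedLT W] [WellFoundedLT I] in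
lemma col_rot (d : W → W → I) {a b g : W} (h : Col d a b g) : Col d b g a := by
  unfold Col at *
  tauto

omit [WellFoundedLT W] [WellFoundedLT I] in
lemma col_swap (d : W → W → I) {a b g : W} (hab : a ≠ b) (hbg : b ≠ g) (hag : a ≠ g)
    (h : ¬ Col d a b g) : Col d b a g := by
  unfold Col at *
  push Not at h
  obtain ⟨h1, h2, h3⟩ := h
  rcases lt_or_gt_of_ne hab with p | p <;> rcases lt_or_gt_of_ne hbg with q | q <;>
    rcases lt_or_gt_of_ne hag with r | r
  · exact Or.inl ⟨q, r, before_total d hab (h1 r q)⟩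
  · exact absurd (p.trans q) (lt_asymm r)
  · exact Or.inr (Or.inl ⟨p, q, before_total d hag.symm (h3 q p)⟩)
  · exact Or.inr (Or.inl ⟨p, q, before_total d hag.symm (h3 q p)⟩)
  · exact Or.inl ⟨q, r, before_total d hab (h1 r q)⟩
  · exact Or.inr (Or.inr ⟨r, p, before_total d hbg (h2 p r)⟩)
  · exact absurd (q.trans p) (lt_asymm r)
  · exact Or.inr (Or.inr ⟨r, p, before_total d hbg (h2 p r)⟩)

omit [WellFoundedLT W] [WellFoundedLT I] in
/-- Reading the colour when the last point is the largest. -/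
lemma col_top (d : W → W → I) {a b g : W} (ha : a < g) (hb : b < g) (h : Col d a b g) :
    Before d g a b := by
  rcases h with ⟨_, _, h⟩ | ⟨_, h, _⟩ | ⟨h, _, _⟩
  · exact h
  · exact absurd h (lt_asymm ha)
  · exact absurd h (lt_asymm hb)

/-- Sets all of whose proper initial segments are small. -/
def Good (κ : Cardinal.{u}) (A : Set W) : Prop :=
  κ ≤ #A ∧ ∀ a ∈ A, #{x | x ∈ A ∧ x < a} < κ

lemma exists_good (κ : Cardinal.{u}) (A : Set W) (hA : κ ≤ #A) :
    ∃ A' ⊆ A, Good κ A' := by
  let A' : Set W := {a | a ∈ A ∧ #{x | x ∈ A ∧ x < a} < κ}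
  refine ⟨A', fun a ha => ha.1, ?_, ?_⟩
  · by_cases hne : (A \ A').Nonempty
    · have hmem := WellFounded.min_mem (wellFounded_lt (α := W)) _ hne
      set t := WellFounded.min (wellFounded_lt (α := W)) _ hne with ht
      have h1 : κ ≤ #{x | x ∈ A ∧ x < t} := by
        by_contra hlt
        push Not at hlt
        exact hmem.2 ⟨hmem.1, hlt⟩
      refine h1.trans (Cardinal.mk_le_mk_of_subset ?_)
      intro s hs
      by_contra hs0
      have : ¬ s < t := by
        rw [ht]
        exact WellFounded.not_lt_min (wellFounded_lt (α := W)) (A \ A') (x := s) ⟨hs.1, hs0⟩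
      exact this hs.2
    · have : A ⊆ A' := by
        intro a ha
        by_contra h
        exact hne ⟨a, ha, h⟩
      exact hA.trans (Cardinal.mk_le_mk_of_subset this)
  · intro a ha
    have hss : {x | x ∈ A' ∧ x < a} ⊆ {x | x ∈ A ∧ x < a} := fun x hx => ⟨hx.1.1, hx.2⟩
    exact lt_of_le_of_lt (Cardinal.mk_le_mk_of_subset hss) ha.2

omit [WellFoundedLT W] in
lemma good_noMax {κ : Cardinal.{u}} (hκ : ℵ₀ ≤ κ) {A : Set W} (hA : Good κ A) {w : W}
    (hw : ∃ a ∈ A, w ≤ a) : ∃ a ∈ A, w < a := by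
  by_contra hcon
  push Not at hcon
  obtain ⟨a, ha, hwa⟩ := hw
  have : A ⊆ {x | x ∈ A ∧ x < a} ∪ {a} := by
    intro x hx
    rcases lt_or_eq_of_le ((hcon x hx).trans hwa) with h | h
    · exact Or.inl ⟨hx, h⟩
    · exact Or.inr h
  have h1 : #A < κ := by
    refine lt_of_le_of_lt (Cardinal.mk_le_mk_of_subset this) ?_
    refine lt_of_le_of_lt (Cardinal.mk_union_le _ _) ?_
    rw [Cardinal.mk_singleton]
    exact Cardinal.add_lt_of_lt hκ (hA.2 a ha) (one_lt_aleph0.trans_le hκ)
  exact absurd hA.1 (not_le.2 h1)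

/-- `A` is cofinally dominated by `B`. -/
def Dom (A B : Set W) : Prop := ∀ a ∈ A, ∃ b ∈ B, a < b

omit [WellFoundedLT W] in
lemma not_dom {κ : Cardinal.{u}} (hκ : ℵ₀ ≤ κ) {A B : Set W} (hA : Good κ A)
    (h : ¬ Dom A B) : ∃ a ∈ A, ∀ b ∈ B, b < a := by
  unfold Dom at h
  push Not at h
  obtain ⟨a, ha, hab⟩ := h
  obtain ⟨a', ha', haa'⟩ := good_noMax hκ hA ⟨a, ha, le_rfl⟩
  exact ⟨a', ha', fun b hb => (hab b hb).trans_lt haa'⟩

omit [WellFoundedLT W] [WellFoundedLT I] in
/-- Few points come before a given point. -/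
lemma exists_after {κ : Cardinal.{u}} (d : W → W → I)
    (hsm : ∀ z i, #{x | x < z ∧ d x z ≤ i} < κ) {A : Set W} (hA : κ ≤ #A) {z y : W}
    (hz : ∀ a ∈ A, a < z) : ∃ a ∈ A, ¬ Before d z a y := by
  by_contra hcon
  push Not at hcon
  have : A ⊆ {x | x < z ∧ d x z ≤ d y z} := fun x hx => ⟨hz x hx, before_le d (hcon x hx)⟩
  exact absurd (hA.trans (Cardinal.mk_le_mk_of_subset this)) (not_le.2 (hsm z _))

omit [WellFoundedLT W] in
/-- The interleaved case: infinite descent. -/
lemma descent (d : W → W → I)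
    (hsub : ∀ x y z, x < y → y < z → d x z ≤ max (d x y) (d y z)) (i : I) :
    ∀ A B C : Set W, Dom A B → Dom B C → Dom C A →
      (∀ a ∈ A, ∀ b ∈ B, ∀ g ∈ C, Col d a b g) →
      ∀ b ∈ B, ∀ a ∈ A, b < a → d b a = i → False := by
  induction i using WellFoundedLT.induction with
  | ind i ih =>
    intro A B C hAB hBC hCA hcol b hb a ha hba hd
    obtain ⟨b', hb', hab'⟩ := hAB a ha
    obtain ⟨g, hg, hb'g⟩ := hBC b' hb'
    have hag : a < g := hab'.trans hb'g
    have hbg : b < g := hba.trans hag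
    have h1 : Before d g a b := col_top d hag hbg (hcol a ha b hb g hg)
    have h2 : d a g < d b g := by
      rcases h1 with h1 | ⟨_, h1⟩
      · exact h1
      · exact absurd h1 (lt_asymm hba)
    have h3 : d b g ≤ d b a := by
      rcases le_max_iff.1 (hsub b a g hba hag) with h | h
      · exact h
      · exact absurd h (not_le.2 h2)
    have h4 : d a g < i := hd ▸ (h2.trans_le h3)
    exact ih (d a g) h4 C A B hCA hAB hBC
      (fun x hx y hy z hz => col_rot d (col_rot d (hcol y hy z hz x hx)))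
      a ha g hg hag rfl

omit [WellFoundedLT W] in
/-- No large box lies in the first colour class. -/
lemma no_mono {κ : Cardinal.{u}} (hκ : ℵ₀ ≤ κ) (d : W → W → I)
    (hsub : ∀ x y z, x < y → y < z → d x z ≤ max (d x y) (d y z))
    (hsm : ∀ z i, #{x | x < z ∧ d x z ≤ i} < κ) :
    ∀ A B C : Set W, Good κ A → Good κ B → Good κ C →
      Disjoint A B → Disjoint B C → Disjoint A C →
      ¬ (∀ a ∈ A, ∀ b ∈ B, ∀ g ∈ C, Col d a b g) := by
  -- the top case: some point of the third set is above both other sets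
  have top : ∀ A B C : Set W, Good κ A → Good κ B → Disjoint A B →
      (∃ g ∈ C, (∀ a ∈ A, a < g) ∧ (∀ b ∈ B, b < g)) →
      ¬ (∀ a ∈ A, ∀ b ∈ B, ∀ g ∈ C, Col d a b g) := by
    rintro A B C hA hB hAB ⟨g, hg, hAg, hBg⟩ hcol
    have hBne : B.Nonempty := by
      rw [Set.nonempty_iff_ne_empty]
      rintro rfl
      have := hB.1
      rw [Cardinal.mk_eq_zero] at this
      exact absurd (aleph0_pos.trans_le (hκ.trans this)) (lt_irrefl _)
    obtain ⟨b, hb⟩ := hBne
    obtain ⟨a, ha, hab⟩ := exists_after d hsm hA.1 (y := b) hAg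
    exact hab (col_top d (hAg a ha) (hBg b hb) (hcol a ha b hb g hg))
  -- a case with two interleaved sets above the first one
  have mid : ∀ A B C : Set W, Good κ A → (∃ b ∈ B, ∃ g ∈ C, b < g ∧ ∀ a ∈ A, a < g) →
      ¬ (∀ a ∈ A, ∀ b ∈ B, ∀ g ∈ C, Col d a b g) := by
    rintro A B C hA ⟨b, hb, g, hg, hbg, hAg⟩ hcol
    obtain ⟨a, ha, hab⟩ := exists_after d hsm hA.1 (y := b) hAg
    exact hab (col_top d (hAg a ha) hbg (hcol a ha b hb g hg))
  -- main argument when the third set is cofinally largest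
  have main : ∀ A B C : Set W, Good κ A → Good κ B → Good κ C →
      Disjoint A B → Dom A C → Dom B C →
      ¬ (∀ a ∈ A, ∀ b ∈ B, ∀ g ∈ C, Col d a b g) := by
    intro A B C hA hB hC hAB hAC hBC hcol
    by_cases h1 : Dom C A
    · by_cases h2 : Dom C B
      · -- all three interleaved
        have hA' : Dom A B := fun a ha => by
          obtain ⟨g, hg, hag⟩ := hAC a ha
          obtain ⟨b, hb, hgb⟩ := h2 g hg
          exact ⟨b, hb, hag.trans hgb⟩
        have hBne : B.Nonempty := by
          rw [Set.nonempty_iff_ne_empty]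
          rintro rfl
          have := hB.1
          rw [Cardinal.mk_eq_zero] at this
          exact absurd (aleph0_pos.trans_le (hκ.trans this)) (lt_irrefl _)
        obtain ⟨b, hb⟩ := hBne
        obtain ⟨g, hg, hbg⟩ := hBC b hb
        obtain ⟨a, ha, hga⟩ := h1 g hg
        exact descent d hsub (d b a) A B C hA' hBC h1 hcol b hb a ha (hbg.trans hga) rfl
      · -- B is below a point of C, A is interleaved with C
        obtain ⟨g, hg, hgB⟩ := not_dom hκ hC h2
        obtain ⟨a, ha, hga⟩ := h1 g hg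
        refine mid B C A hB ⟨g, hg, a, ha, hga, fun b hb => (hgB b hb).trans hga⟩ ?_
        exact fun x hx y hy z hz => col_rot d (hcol z hz x hx y hy)
    · obtain ⟨g, hg, hgA⟩ := not_dom hκ hC h1
      by_cases h2 : Dom C B
      · -- A is below a point of C, B is interleaved with C
        obtain ⟨b, hb, hgb⟩ := h2 g hg
        obtain ⟨g', hg', hbg'⟩ := hBC b hb
        exact mid A B C hA
          ⟨b, hb, g', hg', hbg', fun a ha => (hgA a ha).trans (hgb.trans hbg')⟩ hcol
      · obtain ⟨g', hg', hgB⟩ := not_dom hκ hC h2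
        rcases le_total g g' with h | h
        · exact top A B C hA hB hAB ⟨g', hg', fun a ha => (hgA a ha).trans_le h, hgB⟩ hcol
        · exact top A B C hA hB hAB ⟨g, hg, hgA, fun b hb => (hgB b hb).trans_le h⟩ hcol
  intro A B C hA hB hC hAB hBC hAC hcol
  -- comparison of cofinalities is total
  have tot : ∀ X Y : Set W, Good κ X → Good κ Y → Dom X Y ∨ Dom Y X := by
    intro X Y hX hY
    by_cases h : Dom X Y
    · exact Or.inl h
    · right
      obtain ⟨x, hx, hxY⟩ := not_dom hκ hX h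
      exact fun y hy => ⟨x, hx, hxY y hy⟩
  have trans : ∀ X Y Z : Set W, Dom X Y → Dom Y Z → Dom X Z := by
    intro X Y Z h1 h2 x hx
    obtain ⟨y, hy, hxy⟩ := h1 x hx
    obtain ⟨z, hz, hyz⟩ := h2 y hy
    exact ⟨z, hz, hxy.trans hyz⟩
  have hcol1 : ∀ a ∈ B, ∀ b ∈ C, ∀ g ∈ A, Col d a b g :=
    fun x hx y hy z hz => col_rot d (hcol z hz x hx y hy)
  have hcol2 : ∀ a ∈ C, ∀ b ∈ A, ∀ g ∈ B, Col d a b g :=
    fun x hx y hy z hz => col_rot d (hcol1 z hz x hx y hy)
  rcases tot A B hA hB with h1 | h1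
  · rcases tot B C hB hC with h2 | h2
    · exact main A B C hA hB hC hAB (trans _ _ _ h1 h2) h2 hcol
    · exact main C A B hC hA hB hAC.symm h2 h1 hcol2
  · rcases tot A C hA hC with h2 | h2
    · exact main A B C hA hB hC hAB h2 (trans _ _ _ h1 h2) hcol
    · exact main B C A hB hC hA hBC h1 h2 hcol1

/-- Neither colour class contains a large box. -/
lemma no_box {κ : Cardinal.{u}} (hκ : ℵ₀ ≤ κ) (d : W → W → I)
    (hsub : ∀ x y z, x < y → y < z → d x z ≤ max (d x y) (d y z))
    (hsm : ∀ z i, #{x | x < z ∧ d x z ≤ i} < κ)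
    (A B C : Set W) (hA : κ ≤ #A) (hB : κ ≤ #B) (hC : κ ≤ #C)
    (hAB : Disjoint A B) (hBC : Disjoint B C) (hAC : Disjoint A C) :
    ¬ (∀ a ∈ A, ∀ b ∈ B, ∀ g ∈ C, Col d a b g) ∧
      ¬ (∀ a ∈ A, ∀ b ∈ B, ∀ g ∈ C, ¬ Col d a b g) := by
  obtain ⟨A', hA', gA⟩ := exists_good κ A hA
  obtain ⟨B', hB', gB⟩ := exists_good κ B hB
  obtain ⟨C', hC', gC⟩ := exists_good κ C hC
  have dAB : Disjoint A' B' := hAB.mono hA' hB'
  have dBC : Disjoint B' C' := hBC.mono hB' hC'
  have dAC : Disjoint A' C' := hAC.mono hA' hC'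
  constructor
  · intro h
    exact no_mono hκ d hsub hsm A' B' C' gA gB gC dAB dBC dAC
      (fun a ha b hb g hg => h a (hA' ha) b (hB' hb) g (hC' hg))
  · intro h
    refine no_mono hκ d hsub hsm B' A' C' gB gA gC dAB.symm dAC dBC ?_
    intro b hb a ha g hg
    exact col_swap d (dAB.ne_of_mem ha hb) (dBC.ne_of_mem hb hg) (dAC.ne_of_mem ha hg)
      (h a (hA' ha) b (hB' hb) g (hC' hg))

end Core

/-- For every infinite cardinal `κ` and all sets `X`, `Y`, `Z` of cardinality `κ⁺` there is a
two-colouring of `X × Y × Z` without a monochromatic box all of whose sides have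
cardinality `κ`. -/
theorem result (κ : Cardinal.{u}) (hκ : ℵ₀ ≤ κ) (X Y Z : Type u)
    (hX : #X = succ κ) (hY : #Y = succ κ) (hZ : #Z = succ κ) :
    ∃ c : X × Y × Z → Fin 2,
      ∀ (k : Fin 2) (H₁ : Set X) (H₂ : Set Y) (H₃ : Set Z),
        #H₁ = κ → #H₂ = κ → #H₃ = κ →
        ¬ ∀ x ∈ H₁, ∀ y ∈ H₂, ∀ z ∈ H₃, c (x, y, z) = k := by
  classical
  let W : Type u := (succ κ).ord.ToType
  let I : Type u := κ.ord.ToType
  have hW : #W = succ κ := Cardinal.mk_ord_toType _
  have hI : #I = κ := Cardinal.mk_ord_toType _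
  have hIic : ∀ i : I, #(Set.Iic i) < κ := by
    intro i
    have h1 : #(Set.Iio i) < κ := by
      have := Cardinal.mk_Iio_toType_ord_lt i
      exact this
    have h3 : Set.Iic i = Set.Iio i ∪ {i} := by
      rw [Set.union_comm]
      exact Set.Iio_insert.symm
    rw [h3]
    refine lt_of_le_of_lt (Cardinal.mk_union_le _ _) ?_
    rw [Cardinal.mk_singleton]
    exact Cardinal.add_lt_of_lt hκ h1 (one_lt_aleph0.trans_le hκ)
  have hWIio : ∀ z : W, #(Set.Iio z) ≤ #I := by
    intro z
    have := Cardinal.mk_Iio_toType_ord_lt z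
    rw [hI]
    exact Order.lt_succ_iff.1 this
  have hne : Nonempty I := by
    rw [← Cardinal.mk_ne_zero_iff, hI]
    exact (aleph0_pos.trans_le hκ).ne'
  have he : ∀ z : W, ∃ f : W → I, Set.InjOn f (Set.Iio z) := by
    intro z
    obtain ⟨f⟩ := hWIio z
    refine ⟨fun x => if h : x ∈ Set.Iio z then f ⟨x, h⟩ else Classical.arbitrary I, ?_⟩
    intro x hx y hy hxy
    simp only [dif_pos hx, dif_pos hy] at hxy
    exact congrArg Subtype.val (f.injective hxy)
  choose e he using he
  let d : W → W → I := dist e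
  have hsub : ∀ x y z, x < y → y < z → d x z ≤ max (d x y) (d y z) := dist_sub e
  have hsm : ∀ z i, #{x | x < z ∧ d x z ≤ i} < κ := dist_small κ hκ hIic e he
  -- disjoint copies
  have hsum : #(X ⊕ Y ⊕ Z) = #W := by
    have h0 : ℵ₀ ≤ succ κ := hκ.trans (le_succ κ)
    rw [Cardinal.mk_sum, Cardinal.mk_sum, hX, hY, hZ, hW]
    simp only [Cardinal.lift_id]
    rw [Cardinal.add_eq_self h0, Cardinal.add_eq_self h0]
  obtain ⟨φ⟩ := Cardinal.eq.1 hsum
  let fX : X → W := fun x => φ (Sum.inl x)
  let fY : Y → W := fun y => φ (Sum.inr (Sum.inl y))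
  let fZ : Z → W := fun z => φ (Sum.inr (Sum.inr z))
  have iX : Function.Injective fX := fun a b h => by simpa [fX] using h
  have iY : Function.Injective fY := fun a b h => by simpa [fY] using h
  have iZ : Function.Injective fZ := fun a b h => by simpa [fZ] using h
  refine ⟨fun p => if Col d (fX p.1) (fY p.2.1) (fZ p.2.2) then 1 else 0, ?_⟩
  intro k H₁ H₂ H₃ h1 h2 h3 hmono
  have hno := no_box hκ d hsub hsm (fX '' H₁) (fY '' H₂) (fZ '' H₃)
    (by rw [Cardinal.mk_image_eq iX, h1]) (by rw [Cardinal.mk_image_eq iY, h2])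
    (by rw [Cardinal.mk_image_eq iZ, h3])
    (by
      rw [Set.disjoint_left]
      rintro _ ⟨x, _, rfl⟩ ⟨y, _, hxy⟩
      have := φ.injective hxy
      simp at this)
    (by
      rw [Set.disjoint_left]
      rintro _ ⟨x, _, rfl⟩ ⟨y, _, hxy⟩
      have := φ.injective hxy
      simp at this)
    (by
      rw [Set.disjoint_left]
      rintro _ ⟨x, _, rfl⟩ ⟨y, _, hxy⟩
      have := φ.injective hxy
      simp at this)
  by_cases hk : k = 1
  · apply hno.1
    rintro _ ⟨x, hx, rfl⟩ _ ⟨y, hy, rfl⟩ _ ⟨z, hz, rfl⟩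
    have := hmono x hx y hy z hz
    rw [hk] at this
    by_contra hc
    simp only [if_neg hc] at this
    exact absurd this (by decide)
  · apply hno.2
    rintro _ ⟨x, hx, rfl⟩ _ ⟨y, hy, rfl⟩ _ ⟨z, hz, rfl⟩ hc
    have := hmono x hx y hy z hz
    simp only [if_pos hc] at this
    exact hk this.symm

end Pool.Agent.Results.MP_04d4af_lc.NoBox
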